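import Pool.Agent.R602.WT.Fin

/-!
# The trees do not map onto the weakly unordered trees in ZF

The definitions are in `Pool.Agent.R602.WT.Defs` and `Pool.Agent.W868.Defs`.
-/

namespace Pool.Agent.Results.MP_bed2f3_lc.WeakTreesNotSurjective

open Pool.Agent.W868 Pool.Agent.R602.WT

/-- There is a countable transitive model of ZF in which the homomorphism from the countably
branching trees to the countably branching weakly unordered trees is not surjective. -/
theorem result : ∃ M : Set ZFSet.{0}, M.Countable ∧ IsZF M ∧ ∃ W w ν T t τ h,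
    IsTrees M W w ν ∧ IsWeakTrees M T t τ ∧ IsHom M W w ν T t τ h ∧
      ∃ y ∈ T, ∀ z ∈ W, ZFSet.pair z y ∉ h := by
  obtain ⟨M, hM, x, S, B, h⟩ := exists_model
  exact ⟨M, hM, h.zf, main h⟩

end Pool.Agent.Results.MP_bed2f3_lc.WeakTreesNotSurjective
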